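import Pool.Agent.W838.DC.Zs
import Pool.Agent.Helper703.KL.Bruhat

/-!
# Zircon intervals have a stabilising reflection
-/

set_option autoImplicit false

namespace Pool.Agent.W284.DC

open Pool.Agent.W838.DC Pool.Agent.Helper703.KL

variable {B W : Type*} {M : CoxeterMatrix B} [Group W] {cs : CoxeterSystem M W}

lemma ss (i : B) (x : W) : cs.simple i * (cs.simple i * x) = x :=
  cs.simple_mul_simple_cancel_left i

lemma btrans {x y z : W} (h : Pool.Agent.W838.DC.BLe cs x y) (h' : Pool.Agent.W838.DC.BLe cs y z) :
    Pool.Agent.W838.DC.BLe cs x z := Relation.ReflTransGen.trans h h'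

lemma blen {x y : W} (h : Pool.Agent.W838.DC.BLe cs x y) : x = y ∨ cs.length x < cs.length y := by
  have h' : Pool.Agent.Helper703.KL.BLe cs x y := h
  exact Pool.Agent.Helper703.KL.BLe.length h'

lemma up {i : B} {x : W} (h : cs.length x < cs.length (cs.simple i * x)) :
    Pool.Agent.W838.DC.BLe cs x (cs.simple i * x) :=
  Relation.ReflTransGen.single ⟨cs.simple i, cs.isReflection_simple i, rfl, h⟩

lemma down {i : B} {x : W} (h : cs.length (cs.simple i * x) < cs.length x) :
    Pool.Agent.W838.DC.BLe cs (cs.simple i * x) x := by
  have := up (cs := cs) (i := i) (x := cs.simple i * x) (by rwa [ss])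
  rwa [ss] at this

/-- lifting upwards -/
lemma lup {i : B} {x y : W} (h : Pool.Agent.W838.DC.BLe cs x y)
    (hy : cs.length y < cs.length (cs.simple i * y)) :
    Pool.Agent.W838.DC.BLe cs (cs.simple i * x) (cs.simple i * y) := by
  have h' : Pool.Agent.Helper703.KL.BLe cs x y := h
  have := (Pool.Agent.Helper703.KL.BLe.lift i h').2
  rw [dmax, if_pos hy] at this
  exact this

/-- L1 -/
lemma l1 {i : B} {x y : W} (h : Pool.Agent.W838.DC.BLe cs x y)
    (hy : cs.length (cs.simple i * y) < cs.length y) :
    Pool.Agent.W838.DC.BLe cs (cs.simple i * x) y := by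
  have h' : Pool.Agent.Helper703.KL.BLe cs x y := h
  have := (Pool.Agent.Helper703.KL.BLe.lift i h').2
  rw [dmax, if_neg (by omega)] at this
  exact this

open Classical in
/-- the smaller one of `y` and `s y` -/
noncomputable def dmin (cs : CoxeterSystem M W) (i : B) (y : W) : W :=
  if cs.length (cs.simple i * y) < cs.length y then cs.simple i * y else y

lemma step_down {i : B} {z t : W} (ht : cs.IsReflection t) (hti : t ≠ cs.simple i)
    (h2 : cs.length z < cs.length (t * z)) :
    Pool.Agent.W838.DC.BLe cs (cs.simple i * z) (cs.simple i * (t * z)) ∨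
      cs.length (cs.simple i * z) < cs.length z ∧
        cs.length (t * z) < cs.length (cs.simple i * (t * z)) := by
  have ht' : cs.IsReflection (cs.simple i * t * cs.simple i) := by
    have := ht.conj (cs.simple i)
    rwa [cs.inv_simple] at this
  have e : cs.simple i * (t * z) = cs.simple i * t * cs.simple i * (cs.simple i * z) := by
    simp only [mul_assoc]
    rw [ss]
  left
  have h5 : cs.length (cs.simple i * z) < cs.length (cs.simple i * (t * z)) := by
    by_contra hcon
    have h6 : cs.length (cs.simple i * (t * z)) ≠ cs.length (cs.simple i * z) := by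
      rw [e]
      exact ht'.length_mul_right_ne _
    have h7 := refl_shift ht i hti z (by rw [← e]; omega)
    omega
  exact Relation.ReflTransGen.single ⟨_, ht', e, h5⟩

lemma dmin_mono {i : B} {x y : W} (h : Pool.Agent.W838.DC.BLe cs x y) :
    Pool.Agent.W838.DC.BLe cs (dmin cs i x) (dmin cs i y) := by
  induction h with
  | refl => exact Relation.ReflTransGen.refl
  | tail h1 h2 ih =>
    rename_i b c
    refine btrans ih ?_
    obtain ⟨t, ht, e, hlt⟩ := h2
    subst e
    have hst : Pool.Agent.W838.DC.BLe cs b (t * b) :=
      Relation.ReflTransGen.single ⟨t, ht, rfl, hlt⟩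
    by_cases hti : t = cs.simple i
    · subst hti
      unfold dmin
      rw [if_neg (by omega), if_pos (by rw [ss]; exact hlt), ss]
      exact Relation.ReflTransGen.refl
    · have hd := step_down (i := i) ht hti hlt
      have l1 := cs.length_simple_mul b i
      have l2 := cs.length_simple_mul (t * b) i
      unfold dmin
      by_cases c1 : cs.length (cs.simple i * b) < cs.length b
      · by_cases c2 : cs.length (cs.simple i * (t * b)) < cs.length (t * b)
        · rw [if_pos c1, if_pos c2]
          rcases hd with h | h
          · exact h
          · omega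
        · rw [if_pos c1, if_neg c2]
          exact btrans (down c1) hst
      · by_cases c2 : cs.length (cs.simple i * (t * b)) < cs.length (t * b)
        · rw [if_neg c1, if_pos c2]
          rcases hd with h | h
          · exact btrans (up (by omega)) h
          · omega
        · rw [if_neg c1, if_neg c2]
          exact hst

/-- L2 -/
lemma l2 {i : B} {x y : W} (h : Pool.Agent.W838.DC.BLe cs x y)
    (hx : cs.length x < cs.length (cs.simple i * x))
    (hy : cs.length (cs.simple i * y) < cs.length y) :
    Pool.Agent.W838.DC.BLe cs x (cs.simple i * y) := by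
  have := dmin_mono (i := i) h
  unfold dmin at this
  rwa [if_neg (by omega), if_pos hy] at this

/-- L3 -/
lemma l3 {i : B} {x y : W} (h : Pool.Agent.W838.DC.BLe cs x y)
    (hx : cs.length (cs.simple i * x) < cs.length x)
    (hy : cs.length (cs.simple i * y) < cs.length y) :
    Pool.Agent.W838.DC.BLe cs (cs.simple i * x) (cs.simple i * y) := by
  have := dmin_mono (i := i) h
  unfold dmin at this
  rwa [if_pos hx, if_pos hy] at this

lemma caseA {u w : W} {i : B} (hu : cs.length u < cs.length (cs.simple i * u))
    (hw : cs.length (cs.simple i * w) < cs.length w) : Stab cs u w (cs.simple i) := by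
  refine ⟨cs.isReflection_simple i, ?_, ?_, ?_⟩
  · rintro q ⟨h1, h2⟩
    refine ⟨?_, l1 h2 hw⟩
    have := cs.length_simple_mul q i
    by_cases c : cs.length q < cs.length (cs.simple i * q)
    · exact btrans h1 (up c)
    · exact l2 h1 hu (by omega)
  · intro q _
    have := cs.length_simple_mul q i
    omega
  · intro q p _ _ hqp hp
    exact ⟨l1 hqp hp, fun h => l2 hqp h hp, fun h => l3 hqp h hp⟩

theorem tstar_aux (h : S_FINAL cs) : S_TSTAR cs := by
  have main : ∀ n : ℕ, ∀ u w, cs.length w ≤ n → BLt cs u w → IsZircon cs u w →
      ∃ t, Stab cs u w t := by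
    intro n
    induction n with
    | zero =>
      intro u w hw huw _
      exfalso
      rcases blen huw.1 with h1 | h1
      · exact huw.2 h1
      · omega
    | succ n ih =>
      intro u w hwn huw hz
      obtain ⟨i, hi, hi2⟩ := h u w huw hz
      by_cases hu : cs.length u < cs.length (cs.simple i * u)
      · exact ⟨_, caseA hu hi⟩
      have hlu := cs.length_simple_mul u i
      have hu' : cs.length (cs.simple i * u) < cs.length u := by omega
      have hnot : ¬ Pool.Agent.W838.DC.BLe cs u (cs.simple i * w) := by
        rcases hi2 with h1 | h1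
        · exact h1
        · exact absurd h1 hu
      -- every element of the interval goes down
      have hdown : ∀ q, InInt cs u w q → cs.length (cs.simple i * q) < cs.length q := by
        rintro q ⟨h1, h2⟩
        by_contra hc
        have := cs.length_simple_mul q i
        exact hnot (btrans h1 (l2 h2 (by omega) hi))
      have hupw : ∀ p, InInt cs (cs.simple i * u) (cs.simple i * w) p →
          cs.length p < cs.length (cs.simple i * p) := by
        rintro p ⟨h1, h2⟩
        by_contra hc
        have := cs.length_simple_mul p i
        have h3 := l1 (i := i) h1 (by omega)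
        rw [ss] at h3
        exact hnot (btrans h3 h2)
      have fw : ∀ q, InInt cs u w q → InInt cs (cs.simple i * u) (cs.simple i * w) (cs.simple i * q) := by
        rintro q ⟨h1, h2⟩
        exact ⟨l3 h1 hu' (hdown q ⟨h1, h2⟩), l3 h2 (hdown q ⟨h1, h2⟩) hi⟩
      have bw : ∀ p, InInt cs (cs.simple i * u) (cs.simple i * w) p → InInt cs u w (cs.simple i * p) := by
        rintro p ⟨h1, h2⟩
        constructor
        · have := lup (i := i) h1 (hupw p ⟨h1, h2⟩)
          rwa [ss] at this
        · have := lup (i := i) h2 (by rw [ss]; exact hi)
          rwa [ss] at this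
      have ofw : ∀ q q', InInt cs u w q → InInt cs u w q' → Pool.Agent.W838.DC.BLe cs q q' →
          Pool.Agent.W838.DC.BLe cs (cs.simple i * q) (cs.simple i * q') :=
        fun q q' hq hq' hqq => l3 hqq (hdown q hq) (hdown q' hq')
      have obw : ∀ p p', InInt cs (cs.simple i * u) (cs.simple i * w) p →
          InInt cs (cs.simple i * u) (cs.simple i * w) p' → Pool.Agent.W838.DC.BLe cs p p' →
          Pool.Agent.W838.DC.BLe cs (cs.simple i * p) (cs.simple i * p') :=
        fun p p' _ hp' hpp => lup hpp (hupw p' hp')
      have inj : ∀ a b : W, cs.simple i * a = cs.simple i * b → a = b := fun a b hab =>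
        mul_left_cancel hab
      have ltfw : ∀ q q', InInt cs u w q → InInt cs u w q' → BLt cs q q' →
          BLt cs (cs.simple i * q) (cs.simple i * q') :=
        fun q q' hq hq' hqq => ⟨ofw q q' hq hq' hqq.1, fun hh => hqq.2 (inj _ _ hh)⟩
      have ltbw : ∀ p p', InInt cs (cs.simple i * u) (cs.simple i * w) p →
          InInt cs (cs.simple i * u) (cs.simple i * w) p' → BLt cs p p' →
          BLt cs (cs.simple i * p) (cs.simple i * p') :=
        fun p p' hp hp' hpp => ⟨obw p p' hp hp' hpp.1, fun hh => hpp.2 (inj _ _ hh)⟩
      have cofw : ∀ q q', InInt cs u w q → InInt cs u w q' → BCov cs q q' →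
          BCov cs (cs.simple i * q) (cs.simple i * q') := by
        intro q q' hq hq' hc
        refine ⟨ltfw q q' hq hq' hc.1, ?_⟩
        intro z hz1 hz2
        have hzI : InInt cs (cs.simple i * u) (cs.simple i * w) z :=
          ⟨btrans (fw q hq).1 hz1.1, btrans hz2.1 (fw q' hq').2⟩
        have a1 := ltbw _ _ (fw q hq) hzI hz1
        have a2 := ltbw _ _ hzI (fw q' hq') hz2
        rw [ss] at a1 a2
        exact hc.2 _ a1 a2
      have cobw : ∀ p p', InInt cs (cs.simple i * u) (cs.simple i * w) p →
          InInt cs (cs.simple i * u) (cs.simple i * w) p' → BCov cs p p' →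
          BCov cs (cs.simple i * p) (cs.simple i * p') := by
        intro p p' hp hp' hc
        refine ⟨ltbw p p' hp hp' hc.1, ?_⟩
        intro z hz1 hz2
        have hzI : InInt cs u w z :=
          ⟨btrans (bw p hp).1 hz1.1, btrans hz2.1 (bw p' hp').2⟩
        have a1 := ltfw _ _ (bw p hp) hzI hz1
        have a2 := ltfw _ _ hzI (bw p' hp') hz2
        rw [ss] at a1 a2
        exact hc.2 _ a1 a2
      have hrefl : ∀ x : W, Pool.Agent.W838.DC.BLe cs x x := fun x => Relation.ReflTransGen.refl
      have hlt' : BLt cs (cs.simple i * u) (cs.simple i * w) :=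
        ltfw u w ⟨hrefl u, huw.1⟩ ⟨huw.1, hrefl w⟩ huw
      have hz' : IsZircon cs (cs.simple i * u) (cs.simple i * w) := by
        intro v' hv1 hv2
        have hv'I : InInt cs (cs.simple i * u) (cs.simple i * w) v' := ⟨hv1.1, hv2⟩
        have hvI := bw v' hv'I
        obtain ⟨f, hf⟩ := hz (cs.simple i * v') ⟨hvI.1, by
          intro hh
          apply hv1.2
          rw [hh, ss]⟩ hvI.2
        -- sub-intervals
        have big : ∀ x, InInt cs (cs.simple i * u) v' x →
            InInt cs (cs.simple i * u) (cs.simple i * w) x := fun x hx => ⟨hx.1, btrans hx.2 hv2⟩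
        have sub1 : ∀ x, InInt cs (cs.simple i * u) v' x →
            InInt cs u (cs.simple i * v') (cs.simple i * x) := by
          intro x hx
          exact ⟨(bw x (big x hx)).1, obw x v' (big x hx) hv'I hx.2⟩
        have big2 : ∀ x, InInt cs u (cs.simple i * v') x → InInt cs u w x :=
          fun x hx => ⟨hx.1, btrans hx.2 hvI.2⟩
        have sub2 : ∀ x, InInt cs u (cs.simple i * v') x →
            InInt cs (cs.simple i * u) v' (cs.simple i * x) := by
          intro x hx
          refine ⟨(fw x (big2 x hx)).1, ?_⟩
          have := ofw x (cs.simple i * v') (big2 x hx) hvI hx.2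
          rwa [ss] at this
        refine ⟨fun x => cs.simple i * f (cs.simple i * x), ?_, ?_, ?_, ?_⟩
        · intro x hx
          exact sub2 _ (hf.maps _ (sub1 x hx))
        · intro x hx
          simp only [ss]
          rw [hf.inv _ (sub1 x hx), ss]
        · intro x hx
          have hx1 := sub1 x hx
          have hx2 := hf.maps _ hx1
          rcases hf.cov _ hx1 with hc | hc
          · left
            have := cofw _ _ (big2 _ hx1) (big2 _ hx2) hc
            rwa [ss] at this
          · right
            have := cofw _ _ (big2 _ hx2) (big2 _ hx1) hc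
            rwa [ss] at this
        · intro x y hx hy hc hne
          have hx1 := sub1 x hx
          have hy1 := sub1 y hy
          have hc' := cobw x y (big x hx) (big y hy) hc
          have hne' : f (cs.simple i * x) ≠ cs.simple i * y := by
            intro hh
            apply hne
            show cs.simple i * f (cs.simple i * x) = y
            rw [hh, ss]
          have := hf.special _ _ hx1 hy1 hc' hne'
          exact ltfw _ _ (big2 _ (hf.maps _ hx1)) (big2 _ (hf.maps _ hy1)) this
      obtain ⟨t0, ht0⟩ := ih _ _ (by omega) hlt' hz'
      have et : ∀ q : W, cs.simple i * t0 * cs.simple i * q = cs.simple i * (t0 * (cs.simple i * q)) :=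
        fun q => by simp only [mul_assoc]
      have hlen1 : ∀ q, InInt cs u w q → cs.length q = cs.length (cs.simple i * q) + 1 := by
        intro q hq
        have := cs.length_simple_mul q i
        have := hdown q hq
        omega
      have hlen2 : ∀ q, InInt cs u w q →
          cs.length (cs.simple i * t0 * cs.simple i * q) = cs.length (t0 * (cs.simple i * q)) + 1 := by
        intro q hq
        have h1 := ht0.maps _ (fw q hq)
        have h2 := hupw _ h1
        have := cs.length_simple_mul (t0 * (cs.simple i * q)) i
        rw [et]
        omega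
      refine ⟨cs.simple i * t0 * cs.simple i, ?_, ?_, ?_, ?_⟩
      · have := ht0.refl.conj (cs.simple i)
        rwa [cs.inv_simple] at this
      · intro q hq
        rw [et]
        exact bw _ (ht0.maps _ (fw q hq))
      · intro q hq
        rw [hlen2 q hq, hlen1 q hq]
        rcases ht0.len _ (fw q hq) with h1 | h1 <;> omega
      · intro q p hq hp hqp hlt
        have hlt0 : cs.length (t0 * (cs.simple i * p)) < cs.length (cs.simple i * p) := by
          rw [hlen2 p hp, hlen1 p hp] at hlt
          omega
        have hq1 := fw q hq
        have hp1 := fw p hp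
        have htq := ht0.maps _ hq1
        have htp := ht0.maps _ hp1
        obtain ⟨b1, b2, b3⟩ := ht0.lift _ _ hq1 hp1 (ofw q p hq hp hqp) hlt0
        refine ⟨?_, ?_, ?_⟩
        · have := obw _ _ htq hp1 b1
          rw [ss] at this
          rw [et]
          exact this
        · intro hl
          rw [hlen2 q hq, hlen1 q hq] at hl
          have := obw _ _ hq1 htp (b2 (by omega))
          rw [ss] at this
          rw [et]
          exact this
        · intro hl
          rw [hlen2 q hq, hlen1 q hq] at hl
          have := obw _ _ htq htp (b3 (by omega))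
          rw [et, et]
          exact this
  intro u w huw hz
  exact main _ u w le_rfl huw hz

theorem tstar {B W : Type*} {M : CoxeterMatrix B} [Group W] (cs : CoxeterSystem M W)
    (h : S_FINAL cs) : S_TSTAR cs := tstar_aux h

end Pool.Agent.W284.DC
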